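import Mathlib

/-!
# Powers of `2 - q` on the boundary of the right lens

On the boundary of the lens `|q - 1| ≤ 1`, `|q - 2| ≤ 1`, outside `1` and `2`, some power of
`2 - q` with exponent at least `3` is close to the positive real axis (recurrence of rotations).
-/

namespace H43CHR

theorem recur {u : ℂ} (hu : ‖u‖ = 1) {e : ℝ} (he : 0 < e) :
    ∃ m : ℕ, 3 ≤ m ∧ ‖u ^ m - 1‖ < e := by
  have hmem : ∀ n : ℕ, u ^ n ∈ Metric.sphere (0 : ℂ) 1 := by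
    intro n
    simp [norm_pow, hu]
  obtain ⟨a, -, φ, hφ, hlim⟩ := (isCompact_sphere (0 : ℂ) 1).tendsto_subseq hmem
  have hc := hlim.cauchySeq
  rw [Metric.cauchySeq_iff] at hc
  obtain ⟨N, hN⟩ := hc e he
  have h1 := hN (N + 3) (by omega) N le_rfl
  have h2 : φ N + 3 ≤ φ (N + 3) := by
    have a1 := hφ (show N < N + 1 by omega)
    have a2 := hφ (show N + 1 < N + 2 by omega)
    have a3 := hφ (show N + 2 < N + 3 by omega)
    omega
  refine ⟨φ (N + 3) - φ N, by omega, ?_⟩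
  have h3 : u ^ φ (N + 3) - u ^ φ N = u ^ φ N * (u ^ (φ (N + 3) - φ N) - 1) := by
    rw [mul_sub, mul_one, ← pow_add]
    congr 2
    omega
  rw [Function.comp_apply, Function.comp_apply, dist_eq_norm, h3, norm_mul, norm_pow, hu,
    one_pow, one_mul] at h1
  exact h1

theorem arc_pow {q : ℂ} (h1 : ‖q - 1‖ ≤ 1) (h2 : ‖q - 2‖ ≤ 1) (h : ‖q - 1‖ = 1 ∨ ‖q - 2‖ = 1)
    (hq1 : q ≠ 1) (hq2 : q ≠ 2) : ∃ m : ℕ, 3 ≤ m ∧ ‖1 - (2 - q) ^ m‖ < ‖q - 1‖ ^ 2 := by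
  obtain ⟨r, hr'⟩ : ∃ r : ℝ, r = ‖2 - q‖ := ⟨_, rfl⟩
  have hr : 0 < r := by
    rw [hr']
    exact norm_pos_iff.2 (sub_ne_zero.2 hq2.symm)
  have hr1 : r ≤ 1 := by rwa [hr', norm_sub_rev]
  have hrc : (r : ℂ) ≠ 0 := by exact_mod_cast hr.ne'
  obtain ⟨u, hu⟩ : ∃ u : ℂ, u = (2 - q) / r := ⟨_, rfl⟩
  have hur : 2 - q = r * u := by
    rw [hu, mul_div_cancel₀ _ hrc]
  have hu1 : ‖u‖ = 1 := by
    rw [hu, norm_div, Complex.norm_real, Real.norm_eq_abs, abs_of_pos hr, ← hr']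
    exact div_self hr.ne'
  have hp : 0 < ‖q - 1‖ := norm_pos_iff.2 (sub_ne_zero.2 hq1)
  obtain ⟨m, hm, hm1⟩ := recur hu1 (e := ‖q - 1‖ ^ 2) (by positivity)
  refine ⟨m, hm, ?_⟩
  rcases h with h | h
  · rw [h, one_pow] at hm1 ⊢
    have h3 : 1 - (2 - q) ^ m = ((1 - r ^ m : ℝ) : ℂ) + ((r ^ m : ℝ) : ℂ) * -(u ^ m - 1) := by
      rw [hur]
      push_cast
      ring
    have h4 : 0 < r ^ m := pow_pos hr m
    have h5 : r ^ m ≤ 1 := pow_le_one₀ hr.le hr1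
    rw [h3]
    refine (norm_add_le _ _).trans_lt ?_
    rw [norm_mul, norm_neg, Complex.norm_real, Complex.norm_real, Real.norm_eq_abs,
      Real.norm_eq_abs, abs_of_nonneg (by linarith), abs_of_pos h4]
    nlinarith
  · have h6 : r = 1 := by rw [hr', norm_sub_rev]; exact h
    have h7 : 2 - q = u := by rw [hur, h6]; simp
    rw [h7, norm_sub_rev]
    exact hm1

end H43CHR
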