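import Pool.Agent.H43CHR.Local
import Pool.Agent.H55CH.LensZero
import Pool.Agent.H43CHR.Arc
import Pool.Agent.CHR.Inside
import Pool.Agent.CHR.Middle

/-!
# Open regions inside the right lens `|q - 1| < 1`, `|q - 2| < 1`

`lens_subset`: the set `|q - 1| < 1`, `|q - 2| < 1`, `|1 - (2 - q)^m| < |q - 1|^2` (`m ≥ 3`) lies in
the closure of the set of chromatic roots of 3-connected planar graphs. `lens_interior`: every
point of the boundary of the right lens except `1` and `2` is an interior point of this closure.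
-/

namespace H43CHR

open H37.Chrom CHR Metric Set Topology

private theorem fin_quad : {z : ℂ | z ^ 2 - 3 * z + 1 = 0}.Finite := by
  have h5 : ((Real.sqrt 5 : ℝ) : ℂ) ^ 2 = 5 := by
    rw [← Complex.ofReal_pow, Real.sq_sqrt (by norm_num)]
    norm_num
  refine ((Set.finite_singleton ((3 - ((Real.sqrt 5 : ℝ) : ℂ)) / 2)).insert
    ((3 + ((Real.sqrt 5 : ℝ) : ℂ)) / 2)).subset ?_
  intro z hz
  have hz' : z ^ 2 - 3 * z + 1 = 0 := hz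
  have h : (z - (3 + ((Real.sqrt 5 : ℝ) : ℂ)) / 2) * (z - (3 - ((Real.sqrt 5 : ℝ) : ℂ)) / 2)
      = 0 := by
    linear_combination hz' - h5 / 4
  rcases mul_eq_zero.mp h with h' | h'
  · exact Or.inl (sub_eq_zero.mp h')
  · exact Or.inr (sub_eq_zero.mp h')

theorem lens_subset {q : ℂ} {m : ℕ} (hm : 3 ≤ m) (h1 : ‖q - 1‖ < 1) (h2 : ‖q - 2‖ < 1)
    (hB : ‖1 - (2 - q) ^ m‖ < ‖q - 1‖ ^ 2) : q ∈ closure rootSet := by
  rw [Metric.mem_closure_iff]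
  intro ε hε
  have hUo : IsOpen {z : ℂ | ‖z - 1‖ < 1 ∧ ‖z - 2‖ < 1 ∧ ‖1 - (2 - z) ^ m‖ < ‖z - 1‖ ^ 2} := by
    have o1 : IsOpen {z : ℂ | ‖z - 1‖ < 1} := isOpen_lt (by fun_prop) (by fun_prop)
    have o2 : IsOpen {z : ℂ | ‖z - 2‖ < 1} := isOpen_lt (by fun_prop) (by fun_prop)
    have o3 : IsOpen {z : ℂ | ‖1 - (2 - z) ^ m‖ < ‖z - 1‖ ^ 2} :=
      isOpen_lt (by fun_prop) (by fun_prop)
    exact o1.inter (o2.inter o3)
  have hVo : IsOpen ({z : ℂ | ‖z - 1‖ < 1 ∧ ‖z - 2‖ < 1 ∧ ‖1 - (2 - z) ^ m‖ < ‖z - 1‖ ^ 2} ∩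
      ball q (ε / 4)) := hUo.inter isOpen_ball
  have hinf := infinite_of_mem_nhds q (hVo.mem_nhds ⟨⟨h1, h2, hB⟩, mem_ball_self (by linarith)⟩)
  obtain ⟨q', ⟨⟨h1', h2', hB'⟩, hq'b⟩, hq'⟩ := hinf.exists_notMem_finite fin_quad
  have hd : ‖q' - q‖ < ε / 4 := by
    rwa [mem_ball, dist_eq_norm] at hq'b
  have h5 : ‖2 - q'‖ < 1 := by rwa [norm_sub_rev]
  have hB0 : 1 - (2 - q') ^ m ≠ 0 := by
    intro h
    have h3 : (2 - q') ^ m = 1 := (sub_eq_zero.1 h).symm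
    have h4 : ‖2 - q'‖ ^ m = 1 := by rw [← norm_pow, h3, norm_one]
    have h6 : ‖2 - q'‖ ^ m < 1 := pow_lt_one₀ (norm_nonneg _) h5 (by omega)
    linarith
  have hne : q' ≠ 1 := by
    rintro rfl
    norm_num at h2'
  obtain ⟨s, t, hs, ht, q1, hq1, hz⟩ := Pool.Agent.H55CH.lens_zero h1' hne (by omega : 1 ≤ m) hB' hB0 hq'
    (ε := min (ε / 4) (1 - ‖q' - 2‖)) (lt_min (by linarith) (by linarith))
  have hq1a : ‖q1 - q'‖ < ε / 4 := hq1.trans_le (min_le_left _ _)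
  have hq1b : ‖q1 - q'‖ < 1 - ‖q' - 2‖ := hq1.trans_le (min_le_right _ _)
  have hq12 : ‖q1 - 2‖ < 1 := by
    have h3 : q1 - 2 = (q1 - q') + (q' - 2) := by ring
    rw [h3]
    refine (norm_add_le _ _).trans_lt ?_
    linarith
  have hz' : (q1 - 1) ^ (s + t - 1) * (q1 ^ 2 - 3 * q1 + 1) + gs (m - 2 + 2) q1 ^ t = 0 := by
    rw [gs, show m - 2 + 2 = m by omega]
    exact hz
  obtain ⟨b, hb, hb1⟩ := near_local hq12 (by omega : 1 ≤ m - 2) hs ht hz' (ε := ε / 4)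
    (by linarith)
  refine ⟨b, hb, ?_⟩
  rw [dist_eq_norm]
  have h3 : q - b = -(q' - q) + -(q1 - q') + -(b - q1) := by ring
  rw [h3]
  refine (norm_add_le _ _).trans_lt ?_
  have h4 := norm_add_le (-(q' - q)) (-(q1 - q'))
  rw [norm_neg, norm_neg] at h4
  rw [norm_neg]
  linarith

theorem lens_interior {q : ℂ} (h1 : ‖q - 1‖ ≤ 1) (h2 : ‖q - 2‖ ≤ 1)
    (h : ‖q - 1‖ = 1 ∨ ‖q - 2‖ = 1) (hq1 : q ≠ 1) (hq2 : q ≠ 2) :
    q ∈ interior (closure rootSet) := by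
  obtain ⟨m, hm, hB⟩ := arc_pow h1 h2 h hq1 hq2
  have hq : 1 < ‖q‖ := by
    by_contra hc
    have hc1 : ‖q‖ ≤ 1 := not_lt.1 hc
    have h3 : q.re ≤ 1 := (Complex.re_le_norm q).trans hc1
    have h4 : 1 ≤ q.re := by
      have h5 := (abs_le.1 ((Complex.abs_re_le_norm (q - 2)).trans h2)).1
      have h6 : (q - 2).re = q.re - 2 := by simp
      linarith
    have h7 : q.re = 1 := le_antisymm h3 h4
    have h8 : q.re * q.re + q.im * q.im ≤ 1 := by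
      rw [← Complex.normSq_apply, Complex.normSq_eq_norm_sq]
      nlinarith [norm_nonneg q]
    have h9 : q.im = 0 := by
      rw [h7] at h8
      nlinarith [mul_self_nonneg q.im]
    exact hq1 (Complex.ext (by rw [h7, Complex.one_re]) (by rw [h9, Complex.one_im]))
  rw [mem_interior_iff_mem_nhds]
  have e1 : ∀ᶠ z in 𝓝 q, ‖1 - (2 - z) ^ m‖ < ‖z - 1‖ ^ 2 :=
    (isOpen_lt (f := fun z : ℂ => ‖1 - (2 - z) ^ m‖) (g := fun z : ℂ => ‖z - 1‖ ^ 2)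
      (by fun_prop) (by fun_prop)).mem_nhds hB
  have e2 : ∀ᶠ z in 𝓝 q, 1 < ‖z‖ :=
    (isOpen_lt (f := fun _ : ℂ => (1 : ℝ)) (g := fun z : ℂ => ‖z‖)
      (by fun_prop) (by fun_prop)).mem_nhds hq
  filter_upwards [e1, e2] with z hz1 hz2
  by_cases a1 : 1 ≤ ‖z - 1‖
  · by_cases a2 : 1 ≤ ‖z - 2‖
    · exact outside_subset a1 a2
    · exact CHR.inside_subset a1 (not_le.1 a2)
  · by_cases a2 : 1 ≤ ‖z - 2‖
    · exact CHR.middle_subset (not_le.1 a1) hz2.le a2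
    · exact lens_subset hm (not_le.1 a1) (not_le.1 a2) hz1

/-- the point `3/2 + (4/5) i`, with `m = 6` (proof by helper80) -/
theorem lens_point : ‖((3 / 2 : ℝ) + (4 / 5 : ℝ) * Complex.I : ℂ) - 1‖ < 1 ∧
    ‖((3 / 2 : ℝ) + (4 / 5 : ℝ) * Complex.I : ℂ) - 2‖ < 1 ∧
    ‖1 - (2 - ((3 / 2 : ℝ) + (4 / 5 : ℝ) * Complex.I : ℂ)) ^ 6‖ <
      ‖((3 / 2 : ℝ) + (4 / 5 : ℝ) * Complex.I : ℂ) - 1‖ ^ 2 := by
  have e : ∀ (z : ℂ) (x y : ℝ), z = ⟨x, y⟩ → ‖z‖ ^ 2 = x ^ 2 + y ^ 2 := by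
    rintro z x y rfl
    rw [← Complex.normSq_eq_norm_sq, Complex.normSq_mk]
    ring
  have hq : ((3 / 2 : ℝ) + (4 / 5 : ℝ) * Complex.I : ℂ) = ⟨3 / 2, 4 / 5⟩ := by
    apply Complex.ext <;> simp
  have a1 : ((3 / 2 : ℝ) + (4 / 5 : ℝ) * Complex.I : ℂ) - 1 = ⟨1 / 2, 4 / 5⟩ := by
    rw [hq]
    apply Complex.ext <;> simp
    norm_num
  have a2 : ((3 / 2 : ℝ) + (4 / 5 : ℝ) * Complex.I : ℂ) - 2 = ⟨-1 / 2, 4 / 5⟩ := by
    rw [hq]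
    apply Complex.ext <;> simp
    norm_num
  have b1 : (2 : ℂ) - ((3 / 2 : ℝ) + (4 / 5 : ℝ) * Complex.I : ℂ) = ⟨1 / 2, -4 / 5⟩ := by
    rw [hq]
    apply Complex.ext <;> simp <;> norm_num
  have b3 : ((⟨1 / 2, -4 / 5⟩ : ℂ)) ^ 3 = ⟨-835 / 1000, -88 / 1000⟩ := by
    apply Complex.ext <;> simp [pow_succ] <;> norm_num
  have b6 : ((⟨1 / 2, -4 / 5⟩ : ℂ)) ^ 6 = ⟨689481 / 1000000, 146960 / 1000000⟩ := by
    rw [show (6 : ℕ) = 3 * 2 from rfl, pow_mul, b3]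
    apply Complex.ext <;> simp [pow_succ] <;> norm_num
  have c : (1 : ℂ) - (⟨689481 / 1000000, 146960 / 1000000⟩ : ℂ) =
      ⟨310519 / 1000000, -146960 / 1000000⟩ := by
    apply Complex.ext <;> simp <;> norm_num
  refine ⟨?_, ?_, ?_⟩
  · have h := e _ _ _ a1
    nlinarith [norm_nonneg (((3 / 2 : ℝ) + (4 / 5 : ℝ) * Complex.I : ℂ) - 1)]
  · have h := e _ _ _ a2
    nlinarith [norm_nonneg (((3 / 2 : ℝ) + (4 / 5 : ℝ) * Complex.I : ℂ) - 2)]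
  · rw [b1, b6, c, e _ _ _ a1]
    have h := e _ _ _ (rfl : (⟨310519 / 1000000, -146960 / 1000000⟩ : ℂ) = _)
    nlinarith [norm_nonneg (⟨310519 / 1000000, -146960 / 1000000⟩ : ℂ)]

end H43CHR
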