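import Mathlib

/-!
# A point of the region of `j = 5` in the left lens
-/

namespace H43CHR

/-- the point `3/4 + (3/5) i`, with `k = 5` -/
theorem left_point : ‖((3 / 4 : ℝ) + (3 / 5 : ℝ) * Complex.I : ℂ)‖ < 1 ∧
    ‖((3 / 4 : ℝ) + (3 / 5 : ℝ) * Complex.I : ℂ) - 1‖ < 1 ∧
    ‖1 - (1 - ((3 / 4 : ℝ) + (3 / 5 : ℝ) * Complex.I : ℂ)) ^ 5‖ <
      ‖((3 / 4 : ℝ) + (3 / 5 : ℝ) * Complex.I : ℂ)‖ := by
  have e : ∀ (z : ℂ) (x y : ℝ), z = ⟨x, y⟩ → ‖z‖ ^ 2 = x ^ 2 + y ^ 2 := by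
    rintro z x y rfl
    rw [← Complex.normSq_eq_norm_sq, Complex.normSq_mk]
    ring
  have hq : ((3 / 4 : ℝ) + (3 / 5 : ℝ) * Complex.I : ℂ) = ⟨3 / 4, 3 / 5⟩ := by
    apply Complex.ext <;> simp
  have a1 : ((3 / 4 : ℝ) + (3 / 5 : ℝ) * Complex.I : ℂ) - 1 = ⟨-1 / 4, 3 / 5⟩ := by
    rw [hq]
    apply Complex.ext <;> simp
    norm_num
  have b1 : (1 : ℂ) - ((3 / 4 : ℝ) + (3 / 5 : ℝ) * Complex.I : ℂ) = ⟨1 / 4, -3 / 5⟩ := by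
    rw [hq]
    apply Complex.ext <;> simp <;> norm_num
  have b2 : ((⟨1 / 4, -3 / 5⟩ : ℂ)) ^ 2 = ⟨-2975 / 10000, -3 / 10⟩ := by
    apply Complex.ext <;> simp [pow_succ] <;> norm_num
  have b5 : (1 : ℂ) - ((⟨1 / 4, -3 / 5⟩ : ℂ)) ^ 5 = ⟨8932734375 / 10000000000,
      -455212500 / 10000000000⟩ := by
    rw [show (5 : ℕ) = 2 * 2 + 1 from rfl, pow_succ, pow_mul, b2]
    apply Complex.ext <;> simp [pow_succ] <;> norm_num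
  have c1 := e _ _ _ hq
  have c2 := e _ _ _ a1
  have c3 := e _ _ _ b5
  have n1 := norm_nonneg ((3 / 4 : ℝ) + (3 / 5 : ℝ) * Complex.I : ℂ)
  have n2 := norm_nonneg (((3 / 4 : ℝ) + (3 / 5 : ℝ) * Complex.I : ℂ) - 1)
  refine ⟨by nlinarith, by nlinarith, ?_⟩
  rw [b1]
  have n3 := norm_nonneg ((1 : ℂ) - ((⟨1 / 4, -3 / 5⟩ : ℂ)) ^ 5)
  refine lt_of_pow_lt_pow_left₀ 2 n1 ?_
  rw [c1, c3]
  norm_num

end H43CHR
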