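import Pool.Agent.CHR.Words

/-!
# Two-hub rims with the blocks `C D^k` and `C D^a C D^k`

Words over `C = false`, `D = true` as in `CHR/Mats`; the block of `b = false` is `C D^k`, the block
of `b = true` is `C D^a C D^k`. Adapted from helper80's `CHR/Words`.
-/

namespace H43CHR

open CHR Finset

variable {A : Type} [CommRing A]

/-- the first part of a block -/
def pre (a : ℕ) (b : Bool) : List Bool := if b then false :: List.replicate a true else []

/-- the block `C D^k` or `C D^a C D^k` -/
def blk (a k : ℕ) (b : Bool) : List Bool := pre a b ++ blkw k 0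

/-- the word with the blocks `bs` -/
def word (a k : ℕ) (bs : List Bool) : List Bool := (bs.map (blk a k)).flatten

/-- the matrix of `pre a b`, with sign -/
def Pm (a : ℕ) (b : Bool) (q : A) : Matrix (Fin 3) (Fin 3) A :=
  if b then ((-1 : A) ^ (a + 1)) • (Bm false q * Bm true q ^ a) else 1

/-- the matrix of a block without the last run, with sign -/
def Xs (a : ℕ) (b : Bool) (q : A) : Matrix (Fin 3) (Fin 3) A := Pm a b q * Xm 0 q

/-- the main part of the partition function -/
def Phs (a : ℕ) (bs : List Bool) (q x : A) : A :=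
  ((bs.map (fun b => Xs a b q * (V2 q + x • V1 q))).prod).trace

/-- the geometric sum `1 + (2 - q) + ... + (2 - q)^(n - 1)` -/
def gs (n : ℕ) (q : A) : A := ∑ i ∈ range n, (2 - q) ^ i

lemma gs_succ (n : ℕ) (q : A) : gs (n + 1) q = (2 - q) * gs n q + 1 := by
  rw [gs, geom_sum_succ, gs]

lemma gs_mul (n : ℕ) (q : A) : (q - 1) * gs n q = 1 - (2 - q) ^ n := by
  have h := mul_neg_geom_sum (2 - q) n
  rw [gs, ← h]
  ring

lemma gs_map {B : Type} [CommRing B] (f : A →+* B) (n : ℕ) (q : A) : f (gs n q) = gs n (f q) := by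
  rw [gs, gs, map_sum]
  refine Finset.sum_congr rfl fun i _ => ?_
  rw [map_pow, map_sub, map_ofNat]

theorem length_blk (a k : ℕ) (b : Bool) :
    (blk a k b).length = (if b then a + 1 else 0) + (k + 1) := by
  cases b
  · simp [blk, pre, blkw]
  · simp [blk, pre, blkw]
    omega

theorem pre_prod (a : ℕ) (b : Bool) (q : A) :
    ((-1 : A) ^ (if b then a + 1 else 0)) • (((pre a b).map (fun b => Bm b q)).prod) =
      Pm a b q := by
  cases b
  · simp [pre, Pm]
  · simp only [pre, Pm, if_true, List.map_cons, List.prod_cons, List.map_replicate,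
      List.prod_replicate]

theorem blk_prod' (a : ℕ) (q : A) (k : ℕ) (b : Bool) :
    ((q - 1) * (-1) ^ (blk a (k + 1) b).length) • (((blk a (k + 1) b).map (fun b => Bm b q)).prod) =
      Xs a b q * (V2 q + (2 - q) ^ k • V1 q) := by
  have h0 := CHR.blk_prod q k 0
  have h3 : ((-1 : A) ^ (blk a (k + 1) b).length) =
      (-1) ^ (if b then a + 1 else 0) * (-1) ^ k := by
    rw [length_blk, pow_add, pow_add, pow_add]
    ring
  rw [Xs, mul_assoc, ← h0, ← pre_prod, blk, List.map_append, List.prod_append, smul_mul_smul_comm,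
    ← blk, h3]
  congr 1
  ring

theorem words_prod' (a : ℕ) (q : A) (k : ℕ) (bs : List Bool) :
    ((q - 1) ^ bs.length * (-1) ^ (word a (k + 1) bs).length) •
      (((word a (k + 1) bs).map (fun b => Bm b q)).prod) =
      (bs.map (fun b => Xs a b q * (V2 q + (2 - q) ^ k • V1 q))).prod := by
  induction bs with
  | nil => simp [word]
  | cons b bs ih =>
    have h1 : word a (k + 1) (b :: bs) = blk a (k + 1) b ++ word a (k + 1) bs := by
      simp [word]
    rw [h1, List.map_append, List.prod_append, List.length_cons, List.map_cons, List.prod_cons,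
      ← ih, ← blk_prod', smul_mul_smul_comm, List.length_append]
    congr 1
    rw [pow_succ, pow_add]
    ring

theorem word_identity' (a k : ℕ) (N : ℕ) (bs : List Bool) (hbs : bs.length = N + 1) (q : A) :
    (q - 1) ^ N * (-1) ^ (word a (k + 1) bs).length * Rw (word a (k + 1) bs) q =
      q * ((q - 1) ^ N * ((2 - q) ^ (word a (k + 1) bs).length + (q ^ 2 - 3 * q + 1)) +
        Phs a bs q ((2 - q) ^ k)) := by
  have h1 := congrArg Matrix.trace (words_prod' a q k bs)
  rw [Matrix.trace_smul, smul_eq_mul, hbs] at h1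
  have h3 : ((-1 : A) ^ (word a (k + 1) bs).length) * (-1) ^ (word a (k + 1) bs).length = 1 := by
    rw [← mul_pow]; simp
  have h4 : ((-1 : A) ^ (word a (k + 1) bs).length) * (q - 2) ^ (word a (k + 1) bs).length =
      (2 - q) ^ (word a (k + 1) bs).length := by
    rw [← mul_pow]; congr 1; ring
  rw [pow_succ] at h1
  rw [Phs, ← h1, ← h4, Rw]
  linear_combination (q * (q - 1) ^ N * ((q - 2) + (q - 1) * (q - 3))) * h3

private def wl2 : Fin 3 → A := ![1, 0, -1]

private def wv2 (q : A) : Fin 3 → A := ![-(q - 2), 0, 1]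

private lemma words_V2 (q : A) : V2 q = Matrix.vecMulVec (wv2 q) wl2 := by
  ext i j
  fin_cases i <;> fin_cases j <;> simp [V2, Matrix.vecMulVec, wv2, wl2]

private lemma words_rank (a : ℕ) (q : A) (bs : List Bool) : ∀ b : Bool,
    (((b :: bs).map (fun b => Xs a b q * V2 q)).prod) =
      (bs.map (fun b => wl2 ⬝ᵥ (Xs a b q).mulVec (wv2 q))).prod •
        Matrix.vecMulVec ((Xs a b q).mulVec (wv2 q)) wl2 := by
  induction bs with
  | nil =>
    intro j
    rw [List.map_cons, List.map_nil, List.prod_cons, List.prod_nil, mul_one, List.map_nil,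
      List.prod_nil, one_smul, words_V2, Matrix.mul_vecMulVec]
  | cons i js ih =>
    intro j
    rw [List.map_cons, List.prod_cons, ih i, words_V2, Matrix.mul_vecMulVec, mul_smul_comm,
      Matrix.vecMulVec_mul_vecMulVec, List.map_cons, List.prod_cons]
    rw [Matrix.vecMulVec_smul, smul_smul, mul_comm]

private lemma row (a : ℕ) (q : A) :
    Matrix.vecMul wl2 (Bm false q * Bm true q ^ a) =
      ((-1 : A) ^ a) • ![-gs a q, 0, gs (a + 1) q] := by
  induction a with
  | zero =>
    ext i
    fin_cases i <;>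
      simp [Bm, wl2, Matrix.vecMul, dotProduct, Fin.sum_univ_three, gs] <;> ring
  | succ a ih =>
    rw [pow_succ, ← mul_assoc, ← Matrix.vecMul_vecMul, ih]
    have h2 : gs (a + 1 + 1) q = (q - 2) * gs a q + (3 - q) * gs (a + 1) q := by
      rw [gs_succ (a + 1), gs_succ a]
      ring
    ext i
    fin_cases i
    · simp [Bm, Matrix.vecMul, dotProduct, Fin.sum_univ_three, pow_succ]
    · simp [Bm, Matrix.vecMul, dotProduct, Fin.sum_univ_three, pow_succ]
    · simp [Bm, Matrix.vecMul, dotProduct, Fin.sum_univ_three, pow_succ, h2]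
      ring

/-- the amplitudes -/
def amp (a : ℕ) (b : Bool) (q : A) : A := if b then gs (a + 2) q else 1

private lemma amp_eq (a : ℕ) (b : Bool) (q : A) :
    wl2 ⬝ᵥ (Xs a b q).mulVec (wv2 q) = amp a b q := by
  cases b
  · simp [Xs, Pm, Xm, Bm, wl2, wv2, amp, Matrix.mulVec, dotProduct, Fin.sum_univ_three]
    ring
  · rw [Matrix.dotProduct_mulVec, Xs, ← Matrix.vecMul_vecMul]
    have h1 : Matrix.vecMul wl2 (Pm a true q) = ![gs a q, 0, -gs (a + 1) q] := by
      rw [Pm, if_pos rfl, Matrix.vecMul_smul, row, smul_smul, ← pow_add]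
      have h3 : ((-1 : A) ^ (a + 1 + a)) = -1 := by
        rw [show a + 1 + a = 2 * a + 1 by ring, pow_succ, pow_mul]
        simp
      rw [h3]
      ext i
      fin_cases i <;> simp
    have h2 : gs (a + 2) q = (q - 2) * gs a q + (3 - q) * gs (a + 1) q := by
      rw [gs_succ (a + 1), gs_succ a]
      ring
    rw [h1, amp, if_pos rfl, h2]
    simp [Xm, Bm, wv2, Matrix.vecMul, dotProduct, Fin.sum_univ_three]
    ring

theorem Phs_zero (a : ℕ) (bs : List Bool) (hbs : bs ≠ []) (q : A) :
    Phs a bs q 0 = (bs.map (fun b => amp a b q)).prod := by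
  obtain ⟨j, js', rfl⟩ : ∃ j js', bs = j :: js' := by
    cases bs with
    | nil => exact absurd rfl hbs
    | cons j js' => exact ⟨j, js', rfl⟩
  rw [Phs]
  simp only [zero_smul, add_zero]
  rw [words_rank, Matrix.trace_smul, smul_eq_mul, Matrix.trace_vecMulVec, dotProduct_comm, amp_eq,
    List.map_cons, List.prod_cons, mul_comm]
  simp only [amp_eq]

end H43CHR
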