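import Pool.Agent.CHR.RimPlanar
import Pool.Agent.CHR.RimConn
import Pool.Agent.H43CHR.Words

/-!
# The two-hub rims of the words `word a k bs` are 3-connected and planar

Adapted from helper80's `CHR/WordShape`.
-/

namespace H43CHR

open H37.Chrom CHR

/-- every `false` is followed by a `true` -/
private def GoodW (w : List Bool) : Prop := ∀ i : ℕ, w[i]? = some false → w[i + 1]? = some true

private lemma goodW_append {u v : List Bool} (hu : GoodW u) (hv : GoodW v) : GoodW (u ++ v) := by
  intro i h
  by_cases hi : i < u.length
  · rw [List.getElem?_append_left hi] at h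
    have h1 := hu i h
    have h2 : i + 1 < u.length := by
      by_contra hc
      rw [List.getElem?_eq_none (by omega)] at h1
      cases h1
    rw [List.getElem?_append_left h2]
    exact h1
  · rw [List.getElem?_append_right (by omega)] at h
    rw [List.getElem?_append_right (by omega)]
    have h1 := hv _ h
    rwa [show i + 1 - u.length = i - u.length + 1 by omega]

private lemma goodW_nil : GoodW [] := by
  intro i h
  simp at h

private lemma goodW_tail {k : ℕ} (hk : 1 ≤ k) : GoodW (false :: List.replicate k true) := by
  intro i h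
  rcases i with _ | i
  · rw [List.getElem?_cons_succ, List.getElem?_replicate, if_pos (by omega)]
  · rw [List.getElem?_cons_succ, List.getElem?_replicate] at h
    split_ifs at h
    simp at h

private lemma goodW_blk {a k : ℕ} (ha : 1 ≤ a) (hk : 3 ≤ k) (b : Bool) : GoodW (blk a k b) := by
  have h0 : blkw k 0 = false :: List.replicate k true := rfl
  rw [blk, h0]
  refine goodW_append ?_ (goodW_tail (by omega))
  cases b
  · exact goodW_nil
  · exact goodW_tail ha

private lemma word_cons (a k : ℕ) (b : Bool) (bs : List Bool) :
    word a k (b :: bs) = blk a k b ++ word a k bs := by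
  rw [word, List.map_cons, List.flatten_cons, ← word]

private lemma goodW_word {a k : ℕ} (ha : 1 ≤ a) (hk : 3 ≤ k) (bs : List Bool) :
    GoodW (word a k bs) := by
  induction bs with
  | nil => exact goodW_nil
  | cons j js ih =>
    rw [word_cons]
    exact goodW_append (goodW_blk ha hk j) ih

private lemma blk_start (a k : ℕ) (b : Bool) : ∃ u, blk a k b = false :: u ∧ k ≤ u.length := by
  cases b
  · exact ⟨List.replicate k true, rfl, by simp⟩
  · exact ⟨List.replicate a true ++ blkw k 0, rfl, by simp [blkw]; omega⟩

private lemma blk_end {a k : ℕ} (hk : 3 ≤ k) (b : Bool) :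
    ∃ v, blk a k b = v ++ List.replicate 3 true := by
  refine ⟨pre a b ++ (false :: List.replicate (k - 3) true), ?_⟩
  have h0 : blkw k 0 = false :: List.replicate k true := rfl
  rw [blk, h0, List.append_assoc, List.cons_append, List.replicate_append_replicate,
    show k - 3 + 3 = k by omega]

private lemma word_end {a k : ℕ} (hk : 3 ≤ k) (js : List Bool) (h : js ≠ []) :
    ∃ v, word a k js = v ++ List.replicate 3 true := by
  induction js with
  | nil => exact absurd rfl h
  | cons j js ih =>
    rw [word_cons]
    by_cases hj : js = []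
    · obtain ⟨v, hv⟩ := blk_end (a := a) hk j
      refine ⟨v, ?_⟩
      rw [hj, hv]
      simp [word]
    · obtain ⟨v, hv⟩ := ih hj
      refine ⟨blk a k j ++ v, ?_⟩
      rw [hv, List.append_assoc]

private lemma word_three {a k : ℕ} (hk : 3 ≤ k) {js : List Bool} (hjs : 3 ≤ js.length) :
    ∃ i j : ℕ, 0 < i ∧ i < j ∧ (word a k js)[0]? = some false ∧ (word a k js)[i]? = some false ∧
      (word a k js)[j]? = some false ∧ 12 ≤ (word a k js).length := by
  match js, hjs with
  | j1 :: j2 :: j3 :: js, _ =>
    obtain ⟨u1, h1, l1⟩ := blk_start a k j1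
    obtain ⟨u2, h2, l2⟩ := blk_start a k j2
    obtain ⟨u3, h3, l3⟩ := blk_start a k j3
    rw [word_cons, word_cons, word_cons, h1, h2, h3]
    refine ⟨u1.length + 1, u1.length + 1 + (u2.length + 1), by omega, by omega, rfl, ?_, ?_, ?_⟩
    · rw [List.getElem?_append_right (by simp)]
      simp
    · rw [List.getElem?_append_right (by simp), List.getElem?_append_right (by simp)]
      simp
    · simp only [List.length_append, List.length_cons]
      omega

private lemma word_last {a k : ℕ} (hk : 3 ≤ k) {js : List Bool} (hjs : 3 ≤ js.length)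
    (i : Fin (word a k js).length) (h : (word a k js).length ≤ i.val + 3) :
    (word a k js).get i = true := by
  obtain ⟨v, hv⟩ := word_end (a := a) hk js (by rintro rfl; simp at hjs)
  have hi := i.2
  have h1 : (word a k js)[i.val]? = some ((word a k js).get i) := by
    rw [List.get_eq_getElem, List.getElem?_eq_getElem]
  have hl : (word a k js).length = v.length + 3 := by rw [hv]; simp
  have h3 : ∀ m : ℕ, v.length ≤ m → m < v.length + 3 → (word a k js)[m]? = some true := by
    intro m hm hm2
    rw [hv, List.getElem?_append_right (by omega), List.getElem?_replicate, if_pos (by omega)]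
  have h2 := h3 i.val (by omega) (by omega)
  rw [h2] at h1
  exact (Option.some.inj h1).symm

private lemma word_get {w : List Bool} {i : ℕ} {b : Bool} (h : w[i]? = some b) :
    ∃ hi : i < w.length, w.get ⟨i, hi⟩ = b := by
  obtain ⟨hi, h2⟩ := List.getElem?_eq_some_iff.1 h
  exact ⟨hi, h2⟩

theorem planar_word' {a k : ℕ} (hk : 3 ≤ k) {js : List Bool} (hjs : 3 ≤ js.length) :
    Planar (RG (word a k js).get) := by
  obtain ⟨i, j, _, _, h0, _, _, hl⟩ := word_three (a := a) hk hjs
  refine planar_rim (by omega) _ ?_ (fun i hi => word_last hk hjs i hi)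
  intro i hi
  obtain ⟨_, h2⟩ := word_get h0
  have h3 : i = ⟨0, by omega⟩ := Fin.ext hi
  rw [h3]
  exact h2

theorem threeConnected_word' {a k : ℕ} (ha : 1 ≤ a) (hk : 3 ≤ k) {js : List Bool}
    (hjs : 3 ≤ js.length) : ThreeConnected (RG (word a k js).get) := by
  obtain ⟨i0, j0, hi0, hij0, h0, h1, h2, hl⟩ := word_three (a := a) hk hjs
  obtain ⟨l0, e0⟩ := word_get h0
  obtain ⟨l1, e1⟩ := word_get h1
  obtain ⟨l2, e2⟩ := word_get h2
  refine threeConnected_rim (by omega) _ ?_ ⟨0, l0⟩ ⟨i0, l1⟩ ⟨j0, l2⟩ ?_ ?_ ?_ e0 e1 e2
  · intro i j hij hi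
    rcases hij with hij | ⟨hij, _⟩
    · have h3 : (word a k js)[i.val]? = some false := by
        rw [← hi, List.get_eq_getElem, List.getElem?_eq_getElem]
      obtain ⟨l4, e4⟩ := word_get (goodW_word ha hk js _ h3)
      have h5 : j = ⟨i.val + 1, l4⟩ := Fin.ext hij
      rw [h5]
      exact e4
    · have h3 := word_last hk hjs i (by omega)
      rw [h3] at hi
      cases hi
  · intro h
    have := congrArg Fin.val h
    simp only at this
    omega
  · intro h
    have := congrArg Fin.val h
    simp only at this
    omega
  · intro h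
    have := congrArg Fin.val h
    simp only at this
    omega

end H43CHR
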